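import Mathlib
import Pool.Agent.Lib.MP_5ae207_co.LymWidth

set_option autoImplicit false

open Classical

namespace Pool.Agent.Results.MP_5ae207_co.WidthLYM

/-- The independent sets of the path `P_n`: vertices `1, ..., n`, edges `{i, i + 1}`. -/
def pathSets (n : ℕ) : Finset (Finset ℕ) :=
  (Finset.Icc 1 n).powerset.filter (fun A => ∀ i ∈ A, i + 1 ∉ A)

/-- The independent sets of the cycle `C_n`: vertices `1, ..., n`, edges `{i, i + 1}` and
`{n, 1}`. -/
def cycleSets (n : ℕ) : Finset (Finset ℕ) :=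
  (Finset.Icc 1 n).powerset.filter (fun A => (∀ i ∈ A, i + 1 ∉ A) ∧ ¬ (n ∈ A ∧ 1 ∈ A))

/-- The layer of all members of `Q` with exactly `r` elements. -/
def layer (Q : Finset (Finset ℕ)) (r : ℕ) : Finset (Finset ℕ) :=
  Q.filter (fun A => A.card = r)

/-- The size of the largest layer, `max over 0 <= r <= n`. -/
def maxLayer (n : ℕ) (Q : Finset (Finset ℕ)) : ℕ :=
  (Finset.range (n + 1)).sup (fun r => (layer Q r).card)

/-- `s` is the width of `Q`: the largest size of a family contained in `Q` no member of which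
is a proper subset of another one. -/
def IsWidth (Q : Finset (Finset ℕ)) (s : ℕ) : Prop :=
  IsGreatest {k : ℕ | ∃ F : Finset (Finset ℕ),
    F ⊆ Q ∧ (∀ A ∈ F, ∀ B ∈ F, ¬ A ⊂ B) ∧ F.card = k} s

/-- The LYM inequality for `Q` with all layers above `r0` weighted like the layer `r0`. -/
def LYM (Q : Finset (Finset ℕ)) (r0 : ℕ) : Prop :=
  ∀ F : Finset (Finset ℕ), F ⊆ Q → (∀ A ∈ F, ∀ B ∈ F, ¬ A ⊂ B) →
    ∑ A ∈ F, (1 : ℚ) / (layer Q (min A.card r0)).card ≤ 1

lemma mem_layer {Q : Finset (Finset ℕ)} {r : ℕ} {A : Finset ℕ} :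
    A ∈ layer Q r ↔ A ∈ Q ∧ A.card = r := by
  unfold layer; exact Finset.mem_filter

lemma isWidth_of_lym {n r0 : ℕ} {Q : Finset (Finset ℕ)} (hn : ∀ A ∈ Q, A.card ≤ n)
    (hdown : ∀ A ∈ Q, ∀ B, B ⊆ A → B ∈ Q) (hL : LYM Q r0) : IsWidth Q (maxLayer n Q) := by
  constructor
  · obtain ⟨r, hr, hmax⟩ := Finset.exists_max_image (Finset.range (n + 1))
      (fun i => (layer Q i).card) ⟨0, by simp⟩
    refine ⟨layer Q r, fun A hA => (mem_layer.mp hA).1, ?_, ?_⟩
    · intro A hA B hB hAB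
      have h1 := Finset.card_lt_card hAB
      rw [(mem_layer.mp hA).2, (mem_layer.mp hB).2] at h1
      exact lt_irrefl _ h1
    · refine le_antisymm ?_ ?_
      · exact Finset.le_sup (f := fun r => (layer Q r).card) hr
      · exact Finset.sup_le fun i hi => hmax i hi
  · rintro k ⟨F, hFQ, hF, rfl⟩
    have hle := hL F hFQ hF
    rcases F.eq_empty_or_nonempty with rfl | hne
    · simp
    have key : ∀ A ∈ F, 0 < (layer Q (min A.card r0)).card ∧
        (layer Q (min A.card r0)).card ≤ maxLayer n Q := by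
      intro A hA
      obtain ⟨B, hBA, hB⟩ := Finset.exists_subset_card_eq (min_le_left A.card r0)
      have hBQ : B ∈ layer Q (min A.card r0) := mem_layer.mpr ⟨hdown A (hFQ hA) B hBA, hB⟩
      refine ⟨Finset.card_pos.mpr ⟨B, hBQ⟩, ?_⟩
      refine Finset.le_sup (f := fun r => (layer Q r).card) (Finset.mem_range.mpr ?_)
      have := hn A (hFQ hA)
      have := min_le_left A.card r0
      omega
    have hMpos : 0 < maxLayer n Q := by
      obtain ⟨A, hA⟩ := hne
      exact lt_of_lt_of_le (key A hA).1 (key A hA).2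
    have hMpos' : (0 : ℚ) < maxLayer n Q := by exact_mod_cast hMpos
    have hlow : ∑ _A ∈ F, (1 : ℚ) / maxLayer n Q ≤
        ∑ A ∈ F, (1 : ℚ) / (layer Q (min A.card r0)).card := by
      refine Finset.sum_le_sum fun A hA => ?_
      have h1 : (0 : ℚ) < (layer Q (min A.card r0)).card := by exact_mod_cast (key A hA).1
      have h2 : ((layer Q (min A.card r0)).card : ℚ) ≤ maxLayer n Q := by
        exact_mod_cast (key A hA).2
      exact one_div_le_one_div_of_le h1 h2
    rw [Finset.sum_const, nsmul_eq_mul, mul_one_div] at hlow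
    have h3 := hlow.trans hle
    rw [div_le_one hMpos'] at h3
    exact_mod_cast h3

/-- transfer of the inequality along an injection of the vertex set -/
lemma lym_transfer {β : Type*} (e : β ↪ ℕ) (Q0 : Finset (Finset β)) (Q : Finset (Finset ℕ))
    (hQ : ∀ A : Finset ℕ, A ∈ Q ↔ ∃ s ∈ Q0, s.map e = A) (r0 : ℕ)
    (h : ∀ F : Finset (Finset β), F ⊆ Q0 → IsAntichain (· ⊆ ·) (F : Set (Finset β)) →
      ∑ s ∈ F, (1 : ℚ) / (Lib.MP5ae207.lev Q0 (min s.card r0)).card ≤ 1) : LYM Q r0 := by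
  intro F hFQ hF
  have hcard : ∀ r, (layer Q r).card = (Lib.MP5ae207.lev Q0 r).card := by
    intro r
    have h1 : layer Q r = (Lib.MP5ae207.lev Q0 r).image (fun s => s.map e) := by
      ext A
      rw [mem_layer, hQ, Finset.mem_image]
      constructor
      · rintro ⟨⟨s, hs, rfl⟩, h2⟩
        rw [Finset.card_map] at h2
        exact ⟨s, Lib.MP5ae207.mem_lev.mpr ⟨hs, h2⟩, rfl⟩
      · rintro ⟨s, hs, rfl⟩
        obtain ⟨h2, h3⟩ := Lib.MP5ae207.mem_lev.mp hs
        exact ⟨⟨s, h2, rfl⟩, by rw [Finset.card_map, h3]⟩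
    rw [h1, Finset.card_image_of_injective _ (Finset.map_injective e)]
  set F0 := Q0.filter (fun s => s.map e ∈ F) with hF0
  have himg : F = F0.image (fun s => s.map e) := by
    ext A
    rw [Finset.mem_image]
    constructor
    · intro hA
      obtain ⟨s, hs, rfl⟩ := (hQ A).mp (hFQ hA)
      exact ⟨s, Finset.mem_filter.mpr ⟨hs, hA⟩, rfl⟩
    · rintro ⟨s, hs, rfl⟩
      exact (Finset.mem_filter.mp hs).2
  have hsum := h F0 (Finset.filter_subset _ _) (by
    intro s hs t ht hne hst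
    have h1 := (Finset.mem_filter.mp (Finset.mem_coe.mp hs)).2
    have h2 := (Finset.mem_filter.mp (Finset.mem_coe.mp ht)).2
    refine hF _ h1 _ h2 ?_
    rw [Finset.map_ssubset_map]
    exact lt_of_le_of_ne hst hne)
  rw [himg, Finset.sum_image (fun s _ t _ hst => Finset.map_injective e hst)]
  refine le_trans (le_of_eq ?_) hsum
  refine Finset.sum_congr rfl fun s _ => ?_
  rw [Finset.card_map, hcard]

/-- the vertex `i : Fin n` is the vertex `i + 1` of `{1, ..., n}` -/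
def emb1 (n : ℕ) : Fin n ↪ ℕ := ⟨fun i => (i : ℕ) + 1, fun i j h => by
  apply Fin.ext
  simpa using h⟩

lemma mem_map_emb1 {n : ℕ} {s : Finset (Fin n)} {j : ℕ} :
    j ∈ s.map (emb1 n) ↔ ∃ h : 1 ≤ j ∧ j ≤ n, (⟨j - 1, by omega⟩ : Fin n) ∈ s := by
  rw [Finset.mem_map]
  constructor
  · rintro ⟨i, hi, rfl⟩
    refine ⟨⟨Nat.le_add_left 1 _, i.2⟩, ?_⟩
    have : (⟨emb1 n i - 1, by have := i.2; simp [emb1]⟩ : Fin n) = i := by
      apply Fin.ext; simp [emb1]
    rw [this]; exact hi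
  · rintro ⟨h, hj⟩
    refine ⟨_, hj, ?_⟩
    simp only [emb1, Function.Embedding.coeFn_mk]
    omega

lemma exists_map_emb1 {n : ℕ} {A : Finset ℕ} (hA : A ⊆ Finset.Icc 1 n) :
    ∃ s : Finset (Fin n), s.map (emb1 n) = A := by
  refine ⟨Finset.univ.filter (fun i => (i : ℕ) + 1 ∈ A), ?_⟩
  ext j
  rw [mem_map_emb1]
  constructor
  · rintro ⟨h, hj⟩
    have h1 := (Finset.mem_filter.mp hj).2
    have h2 : j - 1 + 1 = j := by omega
    simpa [h2] using h1
  · intro hj
    have h1 := Finset.mem_Icc.mp (hA hj)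
    refine ⟨h1, Finset.mem_filter.mpr ⟨Finset.mem_univ _, ?_⟩⟩
    have h2 : j - 1 + 1 = j := by omega
    simpa [h2] using hj

lemma map_emb1_sub {n : ℕ} (s : Finset (Fin n)) : s.map (emb1 n) ⊆ Finset.Icc 1 n := by
  intro j hj
  obtain ⟨h, _⟩ := mem_map_emb1.mp hj
  exact Finset.mem_Icc.mpr h

lemma emb1_mem {n : ℕ} {s : Finset (Fin n)} {i : Fin n} :
    (i : ℕ) + 1 ∈ s.map (emb1 n) ↔ i ∈ s := by
  have : (i : ℕ) + 1 = emb1 n i := rfl
  rw [this, Finset.mem_map']

lemma path_iff (n : ℕ) (A : Finset ℕ) :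
    A ∈ pathSets n ↔ ∃ s ∈ Lib.MP5ae207.Qp n, s.map (emb1 n) = A := by
  unfold pathSets
  rw [Finset.mem_filter, Finset.mem_powerset]
  constructor
  · rintro ⟨h1, h2⟩
    obtain ⟨s, rfl⟩ := exists_map_emb1 h1
    refine ⟨s, Lib.MP5ae207.mem_Qp.mpr ?_, rfl⟩
    intro i hi j hj hij
    refine h2 _ (emb1_mem.mpr hi) ?_
    rw [hij]
    exact emb1_mem.mpr hj
  · rintro ⟨s, hs, rfl⟩
    refine ⟨map_emb1_sub s, ?_⟩
    intro j hj hj'
    obtain ⟨h1, h2⟩ := mem_map_emb1.mp hj
    obtain ⟨h3, h4⟩ := mem_map_emb1.mp hj'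
    refine Lib.MP5ae207.mem_Qp.mp hs _ h2 _ h4 ?_
    simp only
    omega

lemma cycle_iff (k : ℕ) (A : Finset ℕ) :
    A ∈ cycleSets (k + 3) ↔ ∃ s ∈ Lib.MP5ae207.Qc k, s.map (emb1 (k + 3)) = A := by
  have hval : ∀ i : Fin (k + 3), ((i + 1 : Fin (k + 3)) : ℕ) =
      if (i : ℕ) = k + 2 then 0 else (i : ℕ) + 1 := by
    intro i
    rw [Fin.val_add_one]
    simp only [Fin.ext_iff, Fin.val_last]
  unfold cycleSets
  rw [Finset.mem_filter, Finset.mem_powerset]
  constructor
  · rintro ⟨h1, h2, h3⟩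
    obtain ⟨s, rfl⟩ := exists_map_emb1 h1
    refine ⟨s, Lib.MP5ae207.mem_Qc.mpr ?_, rfl⟩
    intro i hi hi'
    have h4 := hval i
    have h5 := emb1_mem.mpr hi
    have h6 := emb1_mem.mpr hi'
    rw [h4] at h6
    split_ifs at h6 with h7
    · rw [h7] at h5
      exact h3 ⟨h5, h6⟩
    · exact h2 _ h5 h6
  · rintro ⟨s, hs, rfl⟩
    have hs' := Lib.MP5ae207.mem_Qc.mp hs
    refine ⟨map_emb1_sub s, ?_, ?_⟩
    · intro j hj hj'
      obtain ⟨h1, h2⟩ := mem_map_emb1.mp hj
      obtain ⟨h3, h4⟩ := mem_map_emb1.mp hj'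
      refine hs' _ h2 ?_
      have h5 : (⟨j - 1, by omega⟩ : Fin (k + 3)) + 1 = ⟨j + 1 - 1, by omega⟩ := by
        apply Fin.ext
        rw [hval]
        simp only
        rw [if_neg (by omega)]
        omega
      rw [h5]
      exact h4
    · rintro ⟨hj, hj'⟩
      obtain ⟨h1, h2⟩ := mem_map_emb1.mp hj
      obtain ⟨h3, h4⟩ := mem_map_emb1.mp hj'
      refine hs' _ h2 ?_
      have h5 : (⟨k + 3 - 1, by omega⟩ : Fin (k + 3)) + 1 = ⟨1 - 1, by omega⟩ := by
        apply Fin.ext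
        rw [hval]
        simp
      rw [h5]
      exact h4

lemma path_down (n : ℕ) : ∀ A ∈ pathSets n, ∀ B, B ⊆ A → B ∈ pathSets n := by
  intro A hA B hBA
  unfold pathSets at *
  rw [Finset.mem_filter, Finset.mem_powerset] at *
  exact ⟨hBA.trans hA.1, fun i hi hi' => hA.2 i (hBA hi) (hBA hi')⟩

lemma cycle_down (n : ℕ) : ∀ A ∈ cycleSets n, ∀ B, B ⊆ A → B ∈ cycleSets n := by
  intro A hA B hBA
  unfold cycleSets at *
  rw [Finset.mem_filter, Finset.mem_powerset] at *
  exact ⟨hBA.trans hA.1, fun i hi hi' => hA.2.1 i (hBA hi) (hBA hi'),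
    fun h => hA.2.2 ⟨hBA h.1, hBA h.2⟩⟩

lemma card_le_of_sub {n : ℕ} {A : Finset ℕ} (h : A ⊆ Finset.Icc 1 n) : A.card ≤ n := by
  have := Finset.card_le_card h
  simpa using this

/-- For every `n >= 3` the width of the independence complex of the cycle `C_n` is the size of
its largest layer, and for every `n` the same holds for the path `P_n`; moreover the antichains
satisfy the LYM inequality with all layers above `n / 3` (resp. `(n + 1) / 3`) weighted like
that layer. -/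
theorem result :
    (∀ n : ℕ, 3 ≤ n →
      IsWidth (cycleSets n) (maxLayer n (cycleSets n)) ∧ LYM (cycleSets n) (n / 3)) ∧
    (∀ n : ℕ,
      IsWidth (pathSets n) (maxLayer n (pathSets n)) ∧ LYM (pathSets n) ((n + 1) / 3)) := by
  constructor
  · intro n hn
    obtain ⟨k, rfl⟩ : ∃ k, n = k + 3 := ⟨n - 3, by omega⟩
    have hL : LYM (cycleSets (k + 3)) ((k + 3) / 3) :=
      lym_transfer (emb1 (k + 3)) (Lib.MP5ae207.Qc k) (cycleSets (k + 3)) (cycle_iff k)
        ((k + 3) / 3) (fun F h1 h2 => Lib.MP5ae207.cycle_lym k F h1 h2)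
    refine ⟨isWidth_of_lym ?_ (cycle_down _) hL, hL⟩
    intro A hA
    unfold cycleSets at hA
    rw [Finset.mem_filter, Finset.mem_powerset] at hA
    exact card_le_of_sub hA.1
  · intro n
    have hL : LYM (pathSets n) ((n + 1) / 3) :=
      lym_transfer (emb1 n) (Lib.MP5ae207.Qp n) (pathSets n) (path_iff n)
        ((n + 1) / 3) (fun F h1 h2 => Lib.MP5ae207.path_lym n F h1 h2)
    refine ⟨isWidth_of_lym ?_ (path_down _) hL, hL⟩
    intro A hA
    unfold pathSets at hA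
    rw [Finset.mem_filter, Finset.mem_powerset] at hA
    exact card_le_of_sub hA.1

end Pool.Agent.Results.MP_5ae207_co.WidthLYM
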